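import Pool.Agent.W593.IR.Stm

/-! The uniform `(1 + ε)` form of the asymptotic matching bound. -/

set_option autoImplicit false

namespace Pool.Agent.W427.IR

open Finset Pool.Agent.W890.SF Pool.Agent.W593.IR Filter Topology

theorem hasM_mono {α : Type} {F : Finset (Finset α)} {t s : ℕ} (h : HasM F t) (hst : s ≤ t) :
    HasM F s := by
  obtain ⟨M, hM, hm, hc⟩ := h
  obtain ⟨M', hM', hc'⟩ := Finset.exists_subset_card_eq (s := M) (n := s) (by omega)
  exact ⟨M', hM'.trans hM, fun e he e' he' hne => hm e (hM' he) e' (hM' he') hne, hc'⟩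

theorem card_le_choose {n k : ℕ} (F : Finset (Finset (Fin n))) (hF : Unif k F) :
    F.card ≤ n.choose k := by
  have h1 : F ⊆ Finset.powersetCard k (univ : Finset (Fin n)) := by
    intro e he
    rw [Finset.mem_powersetCard]
    exact ⟨Finset.subset_univ e, hF e he⟩
  have h2 := Finset.card_le_card h1
  rwa [Finset.card_powersetCard, Finset.card_univ, Fintype.card_fin] at h2

theorem mv_cont (k : ℕ) : Continuous (mv k) := by
  unfold mv
  fun_prop

theorem desc1 (n s : ℕ) (hs : s ≤ n) (k : ℕ) :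
    n ^ k * (n - s).descFactorial k ≤ (n - s) ^ k * n.descFactorial k := by
  induction k with
  | zero => simp
  | succ k ih =>
    rw [Nat.descFactorial_succ, Nat.descFactorial_succ]
    have h1 : n * (n - s - k) ≤ (n - s) * (n - k) := by
      rcases Nat.lt_or_ge (n - s) k with h | h
      · have h2 : n - s - k = 0 := by omega
        rw [h2, mul_zero]
        exact Nat.zero_le _
      · obtain ⟨a, ha⟩ := Nat.exists_eq_add_of_le h
        have h2 : n = a + k + s := by omega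
        have h3 : n - s - k = a := by omega
        have h4 : n - s = a + k := by omega
        have h5 : n - k = a + s := by omega
        rw [h3, h4, h5, h2]
        nlinarith [Nat.zero_le (k * s)]
    calc n ^ (k + 1) * ((n - s - k) * (n - s).descFactorial k)
        = (n * (n - s - k)) * (n ^ k * (n - s).descFactorial k) := by ring
      _ ≤ ((n - s) * (n - k)) * ((n - s) ^ k * n.descFactorial k) := Nat.mul_le_mul h1 ih
      _ = (n - s) ^ (k + 1) * ((n - k) * n.descFactorial k) := by ring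

theorem ch1 (n s : ℕ) (hs : s ≤ n) (k : ℕ) :
    n ^ k * (n - s).choose k ≤ (n - s) ^ k * n.choose k := by
  have h1 := desc1 n s hs k
  rw [Nat.descFactorial_eq_factorial_mul_choose, Nat.descFactorial_eq_factorial_mul_choose] at h1
  have h2 : k.factorial * (n ^ k * (n - s).choose k) ≤
      k.factorial * ((n - s) ^ k * n.choose k) := by
    calc k.factorial * (n ^ k * (n - s).choose k)
        = n ^ k * (k.factorial * (n - s).choose k) := by ring
      _ ≤ (n - s) ^ k * (k.factorial * n.choose k) := h1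
      _ = k.factorial * ((n - s) ^ k * n.choose k) := by ring
  exact Nat.le_of_mul_le_mul_left h2 (Nat.factorial_pos k)

theorem ch2 (n s k : ℕ) (hk : 1 ≤ k) :
    (k * s) ^ k * n.choose k ≤ n ^ k * (k * (s + 1) - 1).choose k := by
  have h1 := Nat.descFactorial_le_pow n k
  have h2 := Nat.pow_sub_le_descFactorial (k * (s + 1) - 1) k
  have h3 : k * (s + 1) - 1 + 1 - k = k * s := by
    have : k * (s + 1) = k * s + k := by ring
    omega
  rw [h3] at h2
  rw [Nat.descFactorial_eq_factorial_mul_choose] at h1 h2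
  have h4 : k.factorial * ((k * s) ^ k * n.choose k) ≤
      k.factorial * (n ^ k * (k * (s + 1) - 1).choose k) := by
    calc k.factorial * ((k * s) ^ k * n.choose k)
        = (k * s) ^ k * (k.factorial * n.choose k) := by ring
      _ ≤ (k.factorial * (k * (s + 1) - 1).choose k) * n ^ k := Nat.mul_le_mul h2 h1
      _ = k.factorial * (n ^ k * (k * (s + 1) - 1).choose k) := by ring
  exact Nat.le_of_mul_le_mul_left h4 (Nat.factorial_pos k)

theorem mv_mul (n s k : ℕ) (hk : 1 ≤ k) (hn : 1 ≤ n) (hs : s ≤ n) :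
    mv k ((s : ℝ) / n) * ((n.choose k : ℕ) : ℝ) ≤
      max (((n.choose k : ℕ) : ℝ) - (((n - s).choose k : ℕ) : ℝ))
        (((k * (s + 1) - 1).choose k : ℕ) : ℝ) := by
  have hn0 : (0 : ℝ) < n := by exact_mod_cast hn
  have hnk : (0 : ℝ) < (n : ℝ) ^ k := by positivity
  have hC : (0 : ℝ) ≤ ((n.choose k : ℕ) : ℝ) := Nat.cast_nonneg _
  unfold mv
  rw [max_mul_of_nonneg _ _ hC]
  refine max_le_max ?_ ?_
  · have h1 : ((n : ℝ)) ^ k * (((n - s).choose k : ℕ) : ℝ) ≤
        ((n : ℝ) - s) ^ k * ((n.choose k : ℕ) : ℝ) := by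
      have := ch1 n s hs k
      have h2 : ((n ^ k * (n - s).choose k : ℕ) : ℝ) ≤ (((n - s) ^ k * n.choose k : ℕ) : ℝ) := by
        exact_mod_cast this
      push_cast [Nat.cast_sub hs] at h2
      exact h2
    have h3 : (1 - (s : ℝ) / n) ^ k = ((n : ℝ) - s) ^ k / (n : ℝ) ^ k := by
      rw [← div_pow]
      congr 1
      field_simp
    have h4 : (((n - s).choose k : ℕ) : ℝ) ≤ (1 - (s : ℝ) / n) ^ k * ((n.choose k : ℕ) : ℝ) := by
      rw [h3, div_mul_eq_mul_div, le_div_iff₀ hnk]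
      linarith
    linarith
  · have h1 : ((k : ℝ) * s) ^ k * ((n.choose k : ℕ) : ℝ) ≤
        (n : ℝ) ^ k * (((k * (s + 1) - 1).choose k : ℕ) : ℝ) := by
      have := ch2 n s k hk
      exact_mod_cast this
    have h3 : ((k : ℝ) * ((s : ℝ) / n)) ^ k = ((k : ℝ) * s) ^ k / (n : ℝ) ^ k := by
      rw [← div_pow]
      congr 1
      ring
    rw [h3, div_mul_eq_mul_div, div_le_iff₀ hnk]
    linarith

theorem uni (k : ℕ) (α β : ℝ) (hk : 2 ≤ k) (hα : 0 < α) (hβ : β ≤ 1 / (k : ℝ))
    (h : ∀ x : ℝ, α ≤ x → x ≤ β → x = 1 / (k : ℝ) ∨ ((k : ℝ) * x < 1 ∧ UBS k x))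
    (ε : ℝ) (hε : 0 < ε) : ∃ n0 : ℕ, ∀ n : ℕ, n0 ≤ n → ∀ s : ℕ, α * n ≤ s → (s : ℝ) ≤ β * n →
    ∀ F : Finset (Finset (Fin n)), Unif k F → ¬ HasM F (s + 1) →
    (F.card : ℝ) ≤ (1 + ε) * max (((n.choose k : ℕ) : ℝ) - (((n - s).choose k : ℕ) : ℝ))
      (((k * (s + 1) - 1).choose k : ℕ) : ℝ) := by
  have hk0 : (0 : ℝ) < k := by
    have : 0 < k := by omega
    exact_mod_cast this
  have hc0 : (0 : ℝ) < (k * α) ^ k := by positivity
  obtain ⟨d, hd⟩ : ∃ d : ℝ, d = ε * (k * α) ^ k / 2 := ⟨_, rfl⟩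
  have hd0 : 0 < d := by rw [hd]; positivity
  -- compactness
  have hcomp : ∃ n0 : ℕ, ∀ n : ℕ, n0 ≤ n → ∀ s : ℕ, (s : ℝ) / n ∈ Set.Icc α β →
      ∀ F : Finset (Finset (Fin n)), Unif k F → ¬ HasM F (s + 1) →
        (F.card : ℝ) ≤ (mv k ((s : ℝ) / n) + 2 * d) * ((n.choose k : ℕ) : ℝ) := by
    refine IsCompact.induction_on (p := fun S : Set ℝ => ∃ n0 : ℕ, ∀ n : ℕ, n0 ≤ n →
      ∀ s : ℕ, (s : ℝ) / n ∈ S → ∀ F : Finset (Finset (Fin n)), Unif k F → ¬ HasM F (s + 1) →
        (F.card : ℝ) ≤ (mv k ((s : ℝ) / n) + 2 * d) * ((n.choose k : ℕ) : ℝ))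
      (isCompact_Icc (a := α) (b := β)) ?_ ?_ ?_ ?_
    · exact ⟨0, fun n _ s hs => absurd hs (Set.notMem_empty _)⟩
    · rintro S T hST ⟨n0, hn0⟩
      exact ⟨n0, fun n hn s hs => hn0 n hn s (hST hs)⟩
    · rintro S T ⟨n0, hn0⟩ ⟨n1, hn1⟩
      refine ⟨max n0 n1, fun n hn s hs => ?_⟩
      rcases hs with hs | hs
      · exact hn0 n (le_trans (le_max_left _ _) hn) s hs
      · exact hn1 n (le_trans (le_max_right _ _) hn) s hs
    · intro x hx
      have hopen : {y : ℝ | mv k x < mv k y + d} ∈ 𝓝 x := by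
        have hc : Continuous fun y => mv k y + d := (mv_cont k).add continuous_const
        exact (isOpen_lt continuous_const hc).mem_nhds (by
          change mv k x < mv k x + d
          linarith)
      rcases h x hx.1 hx.2 with hxk | ⟨-, hu⟩
      · refine ⟨{y : ℝ | mv k x < mv k y + d}, mem_nhdsWithin_of_mem_nhds hopen, 0,
          fun n _ s hs F hF _ => ?_⟩
        have h1 : (F.card : ℝ) ≤ ((n.choose k : ℕ) : ℝ) := by exact_mod_cast card_le_choose F hF
        have h2 : 1 ≤ mv k x := by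
          unfold mv
          refine le_trans ?_ (le_max_right _ _)
          rw [hxk, mul_one_div_cancel hk0.ne', one_pow]
        have h3 : mv k x < mv k ((s : ℝ) / n) + d := hs
        have hC : (0 : ℝ) ≤ ((n.choose k : ℕ) : ℝ) := Nat.cast_nonneg _
        nlinarith
      · obtain ⟨η, hη, n0, hn0⟩ := hu d hd0
        refine ⟨{y : ℝ | mv k x < mv k y + d} ∩ Set.Iio (x + η / 2),
          mem_nhdsWithin_of_mem_nhds (Filter.inter_mem hopen (Iio_mem_nhds (by linarith))),
          max (max n0 1) ⌈2 / η⌉₊, fun n hn s hs F hF hM => ?_⟩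
        have hn1 : n0 ≤ n := le_trans (le_trans (le_max_left _ _) (le_max_left _ _)) hn
        have hn2 : 1 ≤ n := le_trans (le_trans (le_max_right _ _) (le_max_left _ _)) hn
        have hn3 : 2 / η ≤ n := by
          have : ⌈2 / η⌉₊ ≤ n := le_trans (le_max_right _ _) hn
          exact (Nat.le_ceil _).trans (by exact_mod_cast this)
        have hnpos : (0 : ℝ) < n := by exact_mod_cast hn2
        have hs1 : (s : ℝ) / n < x + η / 2 := hs.2
        have hs2 : mv k x < mv k ((s : ℝ) / n) + d := hs.1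
        rw [div_lt_iff₀ hnpos] at hs1
        rw [div_le_iff₀ hη] at hn3
        have hs3 : ((s + 1 : ℕ) : ℝ) ≤ (x + η) * n := by
          push_cast
          nlinarith
        have hs4 : s + 1 ≤ ⌊(x + η) * n⌋₊ := Nat.le_floor hs3
        have h1 : (F.card : ℝ) < (mv k x + d) * ((n.choose k : ℕ) : ℝ) := by
          by_contra hcon
          push Not at hcon
          exact hM (hasM_mono (hn0 n hn1 F hF hcon) hs4)
        have hC : (0 : ℝ) ≤ ((n.choose k : ℕ) : ℝ) := Nat.cast_nonneg _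
        nlinarith
  obtain ⟨n0, hn0⟩ := hcomp
  refine ⟨max n0 1, fun n hn s hs1 hs2 F hF hM => ?_⟩
  have hn1 : n0 ≤ n := le_trans (le_max_left _ _) hn
  have hn2 : 1 ≤ n := le_trans (le_max_right _ _) hn
  have hnpos : (0 : ℝ) < n := by exact_mod_cast hn2
  have hx1 : α ≤ (s : ℝ) / n := by rwa [le_div_iff₀ hnpos]
  have hx2 : (s : ℝ) / n ≤ β := by rwa [div_le_iff₀ hnpos]
  have h1 := hn0 n hn1 s ⟨hx1, hx2⟩ F hF hM
  have hsn : s ≤ n := by
    have h2 : (1 : ℝ) / k ≤ 1 := by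
      rw [div_le_one hk0]
      have : 1 ≤ k := by omega
      exact_mod_cast this
    have h3 : (s : ℝ) / n ≤ 1 := by linarith
    rw [div_le_one hnpos] at h3
    exact_mod_cast h3
  have h4 := mv_mul n s k (by omega) hn2 hsn
  have h5 : (k * α) ^ k ≤ mv k ((s : ℝ) / n) := by
    unfold mv
    refine le_trans ?_ (le_max_right _ _)
    exact pow_le_pow_left₀ (by positivity) (mul_le_mul_of_nonneg_left hx1 hk0.le) k
  have hC : (0 : ℝ) ≤ ((n.choose k : ℕ) : ℝ) := Nat.cast_nonneg _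
  have h6 : mv k ((s : ℝ) / n) + 2 * d ≤ (1 + ε) * mv k ((s : ℝ) / n) := by
    rw [hd]
    nlinarith
  calc (F.card : ℝ) ≤ (mv k ((s : ℝ) / n) + 2 * d) * ((n.choose k : ℕ) : ℝ) := h1
    _ ≤ ((1 + ε) * mv k ((s : ℝ) / n)) * ((n.choose k : ℕ) : ℝ) :=
        mul_le_mul_of_nonneg_right h6 hC
    _ = (1 + ε) * (mv k ((s : ℝ) / n) * ((n.choose k : ℕ) : ℝ)) := by ring
    _ ≤ (1 + ε) * max (((n.choose k : ℕ) : ℝ) - (((n - s).choose k : ℕ) : ℝ))
          (((k * (s + 1) - 1).choose k : ℕ) : ℝ) :=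
        mul_le_mul_of_nonneg_left h4 (by linarith)

end Pool.Agent.W427.IR
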